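import Mathlib

/-!
# Localizations and integral closures as subalgebras of a field
-/

set_option autoImplicit false

namespace Pool.Agent.K3h55.CV

open Polynomial

/-- the elements which are in `O` after multiplication with a power of `u` -/
def aw {κ M : Type} [Field κ] [Field M] [Algebra κ M] (O : Subalgebra κ M) (u : M) (hu : u ∈ O) :
    Subalgebra κ M where
  carrier := {y | ∃ r : ℕ, u ^ r * y ∈ O}
  mul_mem' := by
    rintro a b ⟨r, hr⟩ ⟨s, hs⟩
    refine ⟨r + s, ?_⟩
    have := mul_mem hr hs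
    rwa [show u ^ r * a * (u ^ s * b) = u ^ (r + s) * (a * b) by rw [pow_add]; ring] at this
  add_mem' := by
    rintro a b ⟨r, hr⟩ ⟨s, hs⟩
    refine ⟨r + s, ?_⟩
    have := add_mem (mul_mem (pow_mem hu s) hr) (mul_mem (pow_mem hu r) hs)
    rwa [show u ^ s * (u ^ r * a) + u ^ r * (u ^ s * b) = u ^ (r + s) * (a + b) by
      rw [pow_add]; ring] at this
  algebraMap_mem' c := ⟨0, by simp⟩

lemma mem_aw {κ M : Type} [Field κ] [Field M] [Algebra κ M] {O : Subalgebra κ M} {u : M}
    {hu : u ∈ O} {y : M} : y ∈ aw O u hu ↔ ∃ r : ℕ, u ^ r * y ∈ O := Iff.rfl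

lemma le_aw {κ M : Type} [Field κ] [Field M] [Algebra κ M] (O : Subalgebra κ M) (u : M)
    (hu : u ∈ O) : O ≤ aw O u hu := fun y hy => ⟨0, by simpa using hy⟩

lemma inv_mem_aw {κ M : Type} [Field κ] [Field M] [Algebra κ M] (O : Subalgebra κ M) (u : M)
    (hu : u ∈ O) (h0 : u ≠ 0) : u⁻¹ ∈ aw O u hu :=
  ⟨1, by rw [pow_one, mul_inv_cancel₀ h0]; exact one_mem _⟩

section

variable {κ M : Type} [Field κ] [Field M] [Algebra κ M] (O : Subalgebra κ M) (u : M) (hu : u ∈ O)

/-- the inclusion -/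
@[reducible] def awAlg : Algebra O (aw O u hu) := (Subalgebra.inclusion (le_aw O u hu)).toAlgebra

attribute [local instance] awAlg

lemma tw1 : IsScalarTower O (aw O u hu) M := IsScalarTower.of_algebraMap_eq fun _ => rfl

lemma tw2 : IsScalarTower κ O (aw O u hu) := IsScalarTower.of_algebraMap_eq fun _ => rfl

lemma awLoc (h0 : u ≠ 0) : IsLocalization (Submonoid.powers (⟨u, hu⟩ : O)) (aw O u hu) := by
  rw [isLocalization_iff]
  refine ⟨?_, ?_, ?_⟩
  · rintro ⟨_, n, rfl⟩
    refine IsUnit.of_mul_eq_one ⟨(u ^ n)⁻¹, ⟨n, ?_⟩⟩ ?_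
    · rw [mul_inv_cancel₀ (pow_ne_zero n h0)]
      exact one_mem _
    · apply Subtype.ext
      change u ^ n * (u ^ n)⁻¹ = 1
      rw [mul_inv_cancel₀ (pow_ne_zero n h0)]
  · rintro ⟨y, r, hr⟩
    refine ⟨(⟨u ^ r * y, hr⟩, ⟨⟨u, hu⟩ ^ r, ⟨r, rfl⟩⟩), ?_⟩
    apply Subtype.ext
    change y * u ^ r = u ^ r * y
    ring
  · rintro ⟨x, hx⟩ ⟨y, hy⟩ h
    refine ⟨1, ?_⟩
    have h1 : x = y := congrArg (fun z : aw O u hu => (z : M)) h
    subst h1
    rfl

/-- integral elements -/
lemma aw_closed (h0 : u ≠ 0) (hO : ∀ y : M, IsIntegral O y → y ∈ O) (y : M)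
    (hy : IsIntegral (aw O u hu) y) : y ∈ aw O u hu := by
  have := tw1 O u hu
  have := awLoc O u hu h0
  obtain ⟨⟨_, n, rfl⟩, hm⟩ := IsIntegral.exists_multiple_integral_of_isLocalization
    (Submonoid.powers (⟨u, hu⟩ : O)) y hy
  refine ⟨n, ?_⟩
  have h1 := hO _ hm
  exact h1

lemma aw_dedekind (h0 : u ≠ 0) (hO : IsDedekindDomain O) : IsDedekindDomain (aw O u hu) := by
  have := awLoc O u hu h0
  refine IsLocalization.isDedekindDomain O (M := Submonoid.powers (⟨u, hu⟩ : O)) ?_ (aw O u hu)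
  refine powers_le_nonZeroDivisors_of_noZeroDivisors ?_
  intro h
  exact h0 (congrArg (fun z : O => (z : M)) h)

lemma aw_frac (h0 : u ≠ 0) (hO : IsFractionRing O M) : IsFractionRing (aw O u hu) M := by
  have := tw1 O u hu
  have := awLoc O u hu h0
  exact IsFractionRing.isFractionRing_of_isDomain_of_isLocalization
    (Submonoid.powers (⟨u, hu⟩ : O)) (aw O u hu) M

lemma aw_ft (h0 : u ≠ 0) (hO : Algebra.FiniteType κ O) : Algebra.FiniteType κ (aw O u hu) := by
  have := tw2 O u hu
  have := awLoc O u hu h0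
  have : Algebra.FiniteType O (aw O u hu) :=
    IsLocalization.finiteType_of_monoid_fg (Submonoid.powers (⟨u, hu⟩ : O)) (aw O u hu)
  exact Algebra.FiniteType.trans hO this

end

/-- **the integral closure of a Dedekind domain in a finite separable extension** -/
theorem bas (κ A K M : Type) [Field κ] [CommRing A] [IsDedekindDomain A] [Field K] [Field M]
    [Algebra κ A] [Algebra.FiniteType κ A] [Algebra A K] [IsFractionRing A K] [Algebra K M]
    [FiniteDimensional K M] [Algebra.IsSeparable K M] [Algebra A M] [IsScalarTower A K M]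
    [Algebra κ M] [IsScalarTower κ A M] :
    ∃ O : Subalgebra κ M, IsDedekindDomain O ∧ Algebra.FiniteType κ O ∧ IsFractionRing O M ∧
      ∀ y, y ∈ O ↔ IsIntegral A y := by
  refine ⟨(integralClosure A M).restrictScalars κ, ?_, ?_, ?_, ?_⟩
  · exact integralClosure.isDedekindDomain A K M
  · have h1 : Module.Finite A (integralClosure A M) := IsIntegralClosure.finite A K M _
    have h2 : Algebra.FiniteType A (integralClosure A M) := inferInstance
    have h3 : Algebra.FiniteType κ (integralClosure A M) := Algebra.FiniteType.trans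
      (S := A) inferInstance h2
    exact h3
  · exact integralClosure.isFractionRing_of_finite_extension K M
  · intro y
    exact Iff.rfl

/-- the properties of the integral closure of the image of `A` in `M` -/
structure Cl (κ A M : Type) [Field κ] [CommRing A] [Field M] [Algebra κ M]
    (φ : A →+* M) (O : Subalgebra κ M) : Prop where
  ded : IsDedekindDomain O
  ft : Algebra.FiniteType κ O
  fr : IsFractionRing O M
  mem : ∀ a, φ a ∈ O
  cl : ∀ y : M, IsIntegral O y → y ∈ O
  min : ∀ S : Subring M, (∀ a, φ a ∈ S) → (∀ y : M, IsIntegral S y → y ∈ S) → ∀ y ∈ O, y ∈ S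
  nrm : ∀ w ∈ O, w ≠ 0 → ∃ a : A, a ≠ 0 ∧ ∃ w' ∈ O, φ a = w * w'

/-- integrality over a subring from the integrality over a ring -/
lemma int_sub {A M : Type} [CommRing A] [Field M] (φ : A →+* M) (S : Subring M)
    (h : ∀ a, φ a ∈ S) (y : M) (hy : φ.IsIntegralElem y) : IsIntegral S y := by
  obtain ⟨p, hp, h0⟩ := hy
  let ψ : A →+* S := φ.codRestrict S h
  refine ⟨p.map ψ, hp.map ψ, ?_⟩
  rw [eval₂_map]
  have h1 : (algebraMap S M).comp ψ = φ := by
    ext a
    rfl
  rw [h1, h0]

theorem bas2 (κ A K M : Type) [Field κ] [CommRing A] [IsDedekindDomain A] [Field K] [Field M]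
    [Algebra κ A] [Algebra.FiniteType κ A] [Algebra A K] [IsFractionRing A K] [Algebra K M]
    [FiniteDimensional K M] [Algebra.IsSeparable K M]
    [Algebra κ M] (hc : ∀ c : κ, algebraMap κ M c = algebraMap K M (algebraMap A K
      (algebraMap κ A c))) :
    ∃ O : Subalgebra κ M, Cl κ A M ((algebraMap K M).comp (algebraMap A K)) O := by
  letI : Algebra A M := ((algebraMap K M).comp (algebraMap A K)).toAlgebra
  have t1 : IsScalarTower A K M := IsScalarTower.of_algebraMap_eq fun _ => rfl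
  have t2 : IsScalarTower κ A M := IsScalarTower.of_algebraMap_eq hc
  obtain ⟨O, h1, h2, h3, h4⟩ := bas κ A K M
  have hmem : ∀ a : A, algebraMap A M a ∈ O := fun a => (h4 _).2 isIntegral_algebraMap
  letI : Algebra A O := ((algebraMap A M).codRestrict O.toSubring hmem).toAlgebra
  have t3 : IsScalarTower A O M := IsScalarTower.of_algebraMap_eq fun _ => rfl
  have hint : Algebra.IsIntegral A O := by
    refine ⟨fun x => ?_⟩
    have h5 : IsIntegral A (x : M) := (h4 _).1 x.2
    exact (isIntegral_algebraMap_iff (A := O) (B := M) Subtype.val_injective).1 h5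
  refine ⟨O, h1, h2, h3, hmem, ?_, ?_, ?_⟩
  · intro y hy
    exact (h4 y).2 (isIntegral_trans (R := A) y hy)
  · intro S hS hcl y hy
    exact hcl y (int_sub (algebraMap A M) S hS y ((h4 y).1 hy))
  · intro w hw hw0
    have h6 : (⟨w, hw⟩ : O) ≠ 0 := fun h => hw0 (congrArg (fun z : O => (z : M)) h)
    have h7 := Ideal.comap_ne_bot_of_integral_mem (R := A) (I := Ideal.span {(⟨w, hw⟩ : O)}) h6
      (Ideal.mem_span_singleton_self _) (hint.isIntegral _)
    obtain ⟨a, ha, ha0⟩ := Submodule.exists_mem_ne_zero_of_ne_bot h7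
    rw [Ideal.mem_comap, Ideal.mem_span_singleton] at ha
    obtain ⟨w', hw'⟩ := ha
    refine ⟨a, ha0, w', w'.2, ?_⟩
    exact congrArg (fun z : O => (z : M)) hw'

end Pool.Agent.K3h55.CV
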