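import Pool.Agent.K3h55.CV.Inv
import Pool.Agent.K3h75.FF.Stm4

/-!
# Two affine pieces of a projective curve
-/

set_option autoImplicit false

namespace Pool.Agent.K3h55.CV

open Polynomial

/-- the ramified points of the second piece -/
lemma last {κ M G : Type} [Field κ] [Field M] [Algebra κ M] [Group G] [MulSemiringAction G M]
    (O₀ O₁ : Subalgebra κ M) (t f : M) (δ : ℕ) (hD : IsDedekindDomain O₀) (ht0 : t ≠ 0)
    (hf0 : f ≠ 0) (h1 : t⁻¹ ∈ O₁) (h2 : t ^ δ / f ∈ O₁) (h3 : f / t ^ δ ∈ O₁)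
    (h4 : ∀ y ∈ O₁, ∃ r : ℕ, (t * f) ^ r * y ∈ O₀) (h5 : ∀ y ∈ O₀, ∃ r : ℕ, t⁻¹ ^ r * y ∈ O₁)
    (g : G) (hgt : g • t = t) (hst : ∀ y ∈ O₀, g • y ∈ O₀)
    (P : Ideal O₁) (hP : P.IsMaximal) (hP0 : P ≠ ⊥)
    (hram : ∀ y : O₁, ∃ e ∈ P, (e : M) = g • (y : M) - y) (hn : ¬ ∃ e ∈ P, (e : M) = t⁻¹) :
    ∃ P₀ : Ideal O₀, P₀.IsMaximal ∧ P₀ ≠ ⊥ ∧ (∀ y : O₀, ∃ e ∈ P₀, (e : M) = g • (y : M) - y) ∧
      ¬ ∃ e ∈ P₀, (e : M) = f := by
  classical
  let T : O₁ := ⟨t⁻¹, h1⟩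
  have hT : T ∉ P := fun h => hn ⟨T, h, rfl⟩
  have hprime : P.IsPrime := hP.isPrime
  have hTn : ∀ n, T ^ n ∉ P := fun n h => hT (hprime.mem_of_pow_mem n h)
  have hTc : ∀ n, ((T ^ n : O₁) : M) = t⁻¹ ^ n := fun n => rfl
  let P₀ : Ideal O₀ :=
    { carrier := {y | ∃ r : ℕ, ∃ e ∈ P, (e : M) = t⁻¹ ^ r * y}
      zero_mem' := ⟨0, 0, P.zero_mem, by simp⟩
      add_mem' := by
        rintro y z ⟨r, e, he, hey⟩ ⟨s, e', he', hez⟩
        refine ⟨r + s, T ^ s * e + T ^ r * e', P.add_mem (P.mul_mem_left _ he)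
          (P.mul_mem_left _ he'), ?_⟩
        push_cast
        rw [hey, hez]
        change t⁻¹ ^ s * (t⁻¹ ^ r * (y : M)) + t⁻¹ ^ r * (t⁻¹ ^ s * (z : M)) = _
        rw [pow_add]
        ring
      smul_mem' := by
        rintro c y ⟨r, e, he, hey⟩
        obtain ⟨s, hs⟩ := h5 c c.2
        refine ⟨s + r, ⟨_, hs⟩ * e, P.mul_mem_left _ he, ?_⟩
        push_cast
        rw [hey, smul_eq_mul]
        push_cast
        rw [pow_add]
        ring }
  have hmem : ∀ y : O₀, y ∈ P₀ ↔ ∃ r : ℕ, ∃ e ∈ P, (e : M) = t⁻¹ ^ r * y := fun y => Iff.rfl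
  have hP₀ne : P₀ ≠ ⊤ := by
    intro h
    have h6 : (1 : O₀) ∈ P₀ := by rw [h]; exact Submodule.mem_top
    obtain ⟨r, e, he, hey⟩ := (hmem _).1 h6
    refine hTn r ?_
    have h7 : e = T ^ r := by
      apply Subtype.ext
      rw [hey, hTc]
      simp
    rwa [← h7]
  have hpr : P₀.IsPrime := by
    refine ⟨hP₀ne, ?_⟩
    rintro y z ⟨r, e, he, hey⟩
    obtain ⟨s, hs⟩ := h5 y y.2
    obtain ⟨s', hs'⟩ := h5 z z.2
    have h6 : T ^ r * ((⟨_, hs⟩ : O₁) * (⟨_, hs'⟩ : O₁)) ∈ P := by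
      have h7 : T ^ r * ((⟨_, hs⟩ : O₁) * (⟨_, hs'⟩ : O₁)) = T ^ (s + s') * e := by
        apply Subtype.ext
        push_cast
        rw [hey]
        change t⁻¹ ^ r * (t⁻¹ ^ s * (y : M) * (t⁻¹ ^ s' * (z : M))) =
          t⁻¹ ^ (s + s') * (t⁻¹ ^ r * ((y : M) * (z : M)))
        rw [pow_add]
        ring
      rw [h7]
      exact P.mul_mem_left _ he
    rcases hprime.mem_or_mem h6 with h7 | h7
    · exact absurd h7 (hTn r)
    · rcases hprime.mem_or_mem h7 with h8 | h8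
      · exact Or.inl ⟨s, _, h8, rfl⟩
      · exact Or.inr ⟨s', _, h8, rfl⟩
  have hP₀0 : P₀ ≠ ⊥ := by
    obtain ⟨y, hy, hy0⟩ := Submodule.exists_mem_ne_zero_of_ne_bot hP0
    obtain ⟨r, hr⟩ := h4 y y.2
    intro h
    have h6 : (⟨_, hr⟩ : O₀) ∈ P₀ := by
      refine ⟨r * (1 + δ), (⟨_, h3⟩ : O₁) ^ r * y, P.mul_mem_left _ hy, ?_⟩
      push_cast
      rw [mul_pow, div_pow, inv_pow, ← pow_mul]
      have h9 : t ^ (r * (1 + δ)) = t ^ r * t ^ (δ * r) := by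
        rw [← pow_add]
        congr 1
        ring
      have h10 : t ^ r ≠ 0 := pow_ne_zero _ ht0
      have h11 : t ^ (δ * r) ≠ 0 := pow_ne_zero _ ht0
      rw [h9]
      field_simp
    rw [h, Submodule.mem_bot] at h6
    have h7 : (t * f) ^ r * (y : M) = 0 := congrArg (fun z : O₀ => (z : M)) h6
    rcases mul_eq_zero.1 h7 with h8 | h8
    · exact pow_ne_zero _ (mul_ne_zero ht0 hf0) h8
    · exact hy0 (Subtype.ext h8)
  refine ⟨P₀, hpr.isMaximal hP₀0, hP₀0, ?_, ?_⟩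
  · intro y
    refine ⟨⟨g • (y : M) - y, sub_mem (hst _ y.2) y.2⟩, ?_, rfl⟩
    obtain ⟨r, hr⟩ := h5 y y.2
    obtain ⟨e, he, hey⟩ := hram ⟨_, hr⟩
    refine ⟨r, e, he, ?_⟩
    rw [hey]
    simp only [smul_mul', smul_pow', smul_inv'', hgt]
    ring
  · rintro ⟨e, ⟨r, e', he', hee⟩, hef⟩
    rw [hef] at hee
    have h6 : T ^ r ∈ P := by
      have h7 : T ^ r = T ^ δ * (⟨_, h2⟩ : O₁) * e' := by
        apply Subtype.ext
        push_cast
        rw [hee]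
        change t⁻¹ ^ r = t⁻¹ ^ δ * (t ^ δ / f) * (t⁻¹ ^ r * f)
        have h11 : t ^ δ ≠ 0 := pow_ne_zero _ ht0
        rw [inv_pow, inv_pow]
        field_simp
      rw [h7]
      exact P.mul_mem_left _ he'
    exact hTn r h6

lemma poly_mem {κ M : Type} [Field κ] [Field M] (S : Subring M) (φ : κ[X] →+* M)
    (hC : ∀ c, φ (C c) ∈ S) (hX : φ X ∈ S) (p : κ[X]) : φ p ∈ S := by
  induction p using Polynomial.induction_on' with
  | add p q hp hq => rw [map_add]; exact add_mem hp hq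
  | monomial n a =>
    rw [← C_mul_X_pow_eq_monomial, map_mul, map_pow]
    exact mul_mem (hC a) (pow_mem hX n)

/-- the ring homomorphism given by an element of the group -/
def gh {M G : Type} [Field M] [Group G] [MulSemiringAction G M] (g : G) : M →+* M :=
  MulSemiringAction.toRingHom G M g

lemma stab {κ A M G : Type} [Field κ] [CommRing A] [Field M] [Algebra κ M] [Group G]
    [MulSemiringAction G M] {φ : A →+* M} {O : Subalgebra κ M} (h : Cl κ A M φ O) (g : G)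
    (hg : ∀ a, g • φ a = φ a) (y : M) (hy : y ∈ O) : g • y ∈ O := by
  refine h.min (O.toSubring.comap (gh g)) ?_ ?_ y hy
  · intro a
    change g • φ a ∈ O
    rw [hg]
    exact h.mem a
  · intro z hz
    change g • z ∈ O
    refine h.cl _ ?_
    let χ : (O.toSubring.comap (gh g)) →+* M := (gh g).comp (O.toSubring.comap (gh g)).subtype
    let ψ : (O.toSubring.comap (gh g)) →+* O := χ.codRestrict O.toSubring (fun x => x.2)
    have h1 : (algebraMap O M).comp ψ = (gh g).comp (algebraMap (O.toSubring.comap (gh g)) M) := by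
      ext x
      rfl
    exact IsIntegral.map_of_comp_eq ψ (gh g) h1 hz

lemma le_aw' {κ A M : Type} [Field κ] [CommRing A] [Field M] [Algebra κ M]
    {φ : A →+* M} {O O' : Subalgebra κ M} (h : Cl κ A M φ O) (u : M) (hu : u ∈ O') (h0 : u ≠ 0)
    (hO' : ∀ y : M, IsIntegral O' y → y ∈ O') (hφ : ∀ a, φ a ∈ aw O' u hu) :
    ∀ y ∈ O, ∃ r : ℕ, u ^ r * y ∈ O' := by
  intro y hy
  refine h.min (aw O' u hu).toSubring hφ ?_ y hy
  intro z hz
  exact aw_closed O' u hu h0 hO' z hz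

lemma le_val {κ A M : Type} [Field κ] [CommRing A] [Field M] [Algebra κ M]
    {φ : A →+* M} {O : Subalgebra κ M} (h : Cl κ A M φ O) (V : ValuationSubring M)
    (hφ : ∀ a, φ a ∈ V) : ∀ y ∈ O, y ∈ V := by
  intro y hy
  refine h.min V.toSubring hφ ?_ y hy
  intro z hz
  have hz' : IsIntegral V z := hz
  obtain ⟨w, hw⟩ := IsIntegrallyClosed.isIntegral_iff.1 hz'
  have h1 : (w : M) = z := hw
  rw [← h1]
  exact w.2

theorem t_CURVE : Pool.Agent.K3h75.FF.S_CURVE := by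
  intro κ M G _ _ _ _ _ _ _ _ _ _ _ _ hG
  classical
  have hcM : ∀ c : κ, algebraMap κ M c = algebraMap (RatFunc κ) M (algebraMap κ (RatFunc κ) c) :=
    IsScalarTower.algebraMap_apply κ (RatFunc κ) M
  obtain ⟨O₀, c0⟩ := bas2 κ κ[X] (RatFunc κ) M (fun c => by
    rw [hcM, ← IsScalarTower.algebraMap_apply κ κ[X] (RatFunc κ)])
  have hpC : ∀ c : κ, piv κ (C c) = algebraMap κ (RatFunc κ) c := by
    intro c
    rw [piv_apply, eval₂_C]
  obtain ⟨O', c1⟩ := bas2 κ (PInv κ) (RatFunc κ) M (fun c => by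
    rw [hcM, ← hpC]
    rfl)
  set φ0 : κ[X] →+* M := (algebraMap (RatFunc κ) M).comp (algebraMap κ[X] (RatFunc κ)) with hφ0
  set φ1 : κ[X] →+* M := (algebraMap (RatFunc κ) M).comp (piv κ) with hφ1
  have c1' : Cl κ κ[X] M φ1 O' := c1
  clear c1
  obtain ⟨t, ht⟩ : ∃ t : M, t = algebraMap (RatFunc κ) M RatFunc.X := ⟨_, rfl⟩
  have ht0 : t ≠ 0 := by
    rw [ht]
    exact (_root_.map_ne_zero _).2 RatFunc.X_ne_zero
  have hφ0C : ∀ c, φ0 (C c) = algebraMap κ M c := by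
    intro c
    rw [hcM, hφ0, RingHom.comp_apply, RatFunc.algebraMap_C, ← RatFunc.algebraMap_eq_C]
  have hφ0X : φ0 X = t := by
    rw [hφ0, RingHom.comp_apply, RatFunc.algebraMap_X, ht]
  have hφ1C : ∀ c, φ1 (C c) = algebraMap κ M c := by
    intro c
    rw [hcM, hφ1, RingHom.comp_apply, hpC]
  have hφ1X : φ1 X = t⁻¹ := by
    rw [hφ1, RingHom.comp_apply, piv_apply, eval₂_X, map_inv₀, ht]
  have hrev : ∀ p : κ[X], φ0 p = φ1 p.reverse * t ^ p.natDegree := by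
    intro p
    rw [hφ0, hφ1, RingHom.comp_apply, RingHom.comp_apply, rev, map_mul, map_pow, ht]
  have hinj : Function.Injective φ0 :=
    (algebraMap (RatFunc κ) M).injective.comp (RatFunc.algebraMap_injective κ)
  have hfix0 : ∀ (g : G) p, g • φ0 p = φ0 p := fun g p => hG g _
  have hfix1 : ∀ (g : G) p, g • φ1 p = φ1 p := fun g p => hG g _
  have hst0 : ∀ (g : G), ∀ y ∈ O₀, g • y ∈ O₀ := fun g y hy => stab c0 g (hfix0 g) y hy
  have hst1 : ∀ (g : G), ∀ y ∈ O', g • y ∈ O' := fun g y hy => stab c1' g (hfix1 g) y hy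
  -- elements moved by `g`
  have hmove : ∀ g : G, g ≠ 1 → ∃ y ∈ O₀, g • y - y ≠ 0 := by
    intro g hg
    by_contra hcon
    push Not at hcon
    have hcon' : ∀ y ∈ O₀, g • y = y := fun y hy => sub_eq_zero.1 (hcon y hy)
    refine hg (FaithfulSMul.eq_of_smul_eq_smul (α := M) fun m => ?_)
    have := c0.fr
    obtain ⟨a, b, hb, rfl⟩ := IsFractionRing.div_surjective (A := O₀) m
    change g • ((a : M) / (b : M)) = (1 : G) • ((a : M) / (b : M))
    rw [div_eq_mul_inv, smul_mul', smul_inv'', hcon' _ a.2, hcon' _ b.2, one_smul]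
  choose! yy hyO hyne using hmove
  let d : G → M := fun g => g • yy g - yy g
  have hdO : ∀ g : G, g ≠ 1 → d g ∈ O₀ := fun g hg => sub_mem (hst0 g _ (hyO g hg)) (hyO g hg)
  have := Fintype.ofFinite G
  obtain ⟨w, hw⟩ : ∃ w : M, w = ∏ g ∈ Finset.univ.erase (1 : G), d g := ⟨_, rfl⟩
  have hwO : w ∈ O₀ := by
    rw [hw]
    exact prod_mem fun g hg => hdO g (Finset.ne_of_mem_erase hg)
  have hw0 : w ≠ 0 := by
    rw [hw]
    exact Finset.prod_ne_zero_iff.2 fun g hg => hyne g (Finset.ne_of_mem_erase hg)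
  have hwd : ∀ g : G, g ≠ 1 → ∃ v ∈ O₀, w = d g * v := by
    intro g hg
    have h1 : g ∈ Finset.univ.erase (1 : G) := Finset.mem_erase.2 ⟨hg, Finset.mem_univ _⟩
    refine ⟨∏ g' ∈ (Finset.univ.erase (1 : G)).erase g, d g', ?_, ?_⟩
    · exact prod_mem fun g' hg' => hdO g' (Finset.ne_of_mem_erase (Finset.mem_of_mem_erase hg'))
    · rw [hw, Finset.mul_prod_erase _ _ h1]
  obtain ⟨p, hp0, w', hw'O, hpw⟩ := c0.nrm w hwO hw0
  have hpw' : φ0 p = w * w' := hpw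
  have hf0 : φ0 p ≠ 0 := fun h => hp0 (hinj (by rw [h, map_zero]))
  obtain ⟨u, hu⟩ : ∃ u : M, u = φ1 p.reverse := ⟨_, rfl⟩
  have huO : u ∈ O' := by rw [hu]; exact c1'.mem _
  have hfu : φ0 p = u * t ^ p.natDegree := by rw [hrev, hu]
  have hu0 : u ≠ 0 := by
    intro h
    rw [h, zero_mul] at hfu
    exact hf0 hfu
  have htd : t ^ p.natDegree ≠ 0 := pow_ne_zero _ ht0
  have htiO : t⁻¹ ∈ O' := by rw [← hφ1X]; exact c1'.mem _
  have htO : t ∈ O₀ := by rw [← hφ0X]; exact c0.mem _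
  have hfO : φ0 p ∈ O₀ := c0.mem _
  have hgt : ∀ g : G, g • t = t := by
    intro g
    rw [ht]
    exact hG g _
  have e1 : t ^ p.natDegree / φ0 p = u⁻¹ := by
    rw [hfu]
    field_simp
  have e2 : φ0 p / t ^ p.natDegree = u := by
    rw [hfu]
    field_simp
  have q1 : t ^ p.natDegree / φ0 p ∈ aw O' u huO := by
    rw [e1]
    exact inv_mem_aw O' u huO hu0
  have q2 : φ0 p / t ^ p.natDegree ∈ aw O' u huO := by
    rw [e2]
    exact le_aw O' u huO huO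
  have q3 : ∀ y ∈ aw O' u huO, ∃ r : ℕ, (t * φ0 p) ^ r * y ∈ O₀ := by
    rintro y ⟨n, hn⟩
    have h1 : ∀ y ∈ O', ∃ r : ℕ, t ^ r * y ∈ O₀ := by
      refine le_aw' c1' t htO ht0 c0.cl ?_
      refine poly_mem (aw O₀ t htO).toSubring φ1 ?_ ?_
      · intro c
        rw [hφ1C]
        exact (aw O₀ t htO).algebraMap_mem c
      · rw [hφ1X]
        exact inv_mem_aw O₀ t htO ht0
    obtain ⟨r, hr⟩ := h1 _ hn
    refine ⟨r + n, ?_⟩
    have h2 : (t * φ0 p) ^ (r + n) * y =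
        t ^ n * φ0 p ^ r * t ^ (p.natDegree * n) * (t ^ r * (u ^ n * y)) := by
      have h3 : φ0 p ^ n = u ^ n * t ^ (p.natDegree * n) := by
        rw [hfu, mul_pow, ← pow_mul]
      rw [mul_pow, pow_add, pow_add, h3]
      ring
    rw [h2]
    exact mul_mem (mul_mem (mul_mem (pow_mem htO _) (pow_mem hfO _)) (pow_mem htO _)) hr
  have q4 : ∀ y ∈ O₀, ∃ r : ℕ, t⁻¹ ^ r * y ∈ aw O' u huO := by
    have h1 : ∀ y ∈ O₀, ∃ r : ℕ, t⁻¹ ^ r * y ∈ O' := by
      refine le_aw' c0 t⁻¹ htiO (inv_ne_zero ht0) c1'.cl ?_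
      refine poly_mem (aw O' t⁻¹ htiO).toSubring φ0 ?_ ?_
      · intro c
        rw [hφ0C]
        exact (aw O' t⁻¹ htiO).algebraMap_mem c
      · rw [hφ0X]
        have h2 := inv_mem_aw O' t⁻¹ htiO (inv_ne_zero ht0)
        rwa [inv_inv] at h2
    intro y hy
    obtain ⟨r, hr⟩ := h1 y hy
    exact ⟨r, le_aw O' u huO hr⟩
  have q5 : ∀ 𝔓 : Ideal O₀, 𝔓.IsMaximal → 𝔓 ≠ ⊥ →
      (∃ g : G, g ≠ 1 ∧ ∀ y : O₀, ∃ e ∈ 𝔓, (e : M) = g • (y : M) - y) →
        ∃ e ∈ 𝔓, (e : M) = φ0 p := by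
    rintro P - - ⟨g, hg, hy⟩
    obtain ⟨e, he, hey⟩ := hy ⟨yy g, hyO g hg⟩
    obtain ⟨v, hv, hwv⟩ := hwd g hg
    refine ⟨e * (⟨v, hv⟩ * ⟨w', hw'O⟩), P.mul_mem_right _ he, ?_⟩
    push_cast
    rw [hey, hpw', hwv]
    change d g * (v * w') = d g * v * w'
    ring
  refine ⟨O₀, aw O' u huO, t, φ0 p, p.natDegree, c0.ded, aw_dedekind O' u huO hu0 c1'.ded,
    c0.ft, aw_ft O' u huO hu0 c1'.ft, c0.fr, aw_frac O' u huO hu0 c1'.fr, hst0, ?_, ?_, ht0, hf0,
    hgt, fun g => hfix0 g p, htO, hfO, le_aw O' u huO htiO, q1, q2, q3, q4, q5, ?_⟩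
  · rintro g y ⟨n, hn⟩
    refine ⟨n, ?_⟩
    have h1 := hst1 g _ hn
    rwa [smul_mul', smul_pow', hu, hfix1, ← hu] at h1
  · intro V hV
    by_cases htV : t ∈ V
    · left
      refine le_val c0 V ?_
      refine poly_mem V.toSubring φ0 ?_ ?_
      · intro c
        rw [hφ0C]
        exact hV c
      · rw [hφ0X]
        exact htV
    · right
      have hti : t⁻¹ ∈ V := (V.mem_or_inv_mem t).resolve_left htV
      have h1 : ∀ q, φ1 q ∈ V := by
        refine poly_mem V.toSubring φ1 ?_ ?_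
        · intro c
          rw [hφ1C]
          exact hV c
        · rw [hφ1X]
          exact hti
      have h2 : ∀ y ∈ O', y ∈ V := le_val c1' V h1
      have hv1 : V.valuation t⁻¹ < 1 := by
        rw [map_inv₀]
        have h3 : ¬ V.valuation t ≤ 1 := by rwa [V.valuation_le_one_iff]
        exact inv_lt_one_of_one_lt₀ (not_le.1 h3)
      have hlc : (p.reverse).coeff 0 ≠ 0 := by
        rw [coeff_zero_reverse]
        exact leadingCoeff_ne_zero.2 hp0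
      have h4 : u = φ1 (divX p.reverse) * t⁻¹ + algebraMap κ M ((p.reverse).coeff 0) := by
        rw [hu, ← hφ1X, ← hφ1C, ← map_mul, ← map_add, divX_mul_X_add]
      have h5 : V.valuation (φ1 (divX p.reverse) * t⁻¹) < 1 := by
        rw [map_mul]
        exact lt_of_le_of_lt (mul_le_of_le_one_left' ((V.valuation_le_one_iff _).2 (h1 _))) hv1
      have h6 : V.valuation (algebraMap κ M ((p.reverse).coeff 0)) = 1 := by
        refine le_antisymm ((V.valuation_le_one_iff _).2 (hV _)) ?_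
        have h7 := (V.valuation_le_one_iff _).2 (hV ((p.reverse).coeff 0)⁻¹)
        rw [map_inv₀, map_inv₀] at h7
        have h8 : V.valuation (algebraMap κ M ((p.reverse).coeff 0)) ≠ 0 := by
          rw [Ne, map_eq_zero, map_eq_zero]
          exact hlc
        exact (inv_le_one₀ (zero_lt_iff.2 h8)).1 h7
      have h7 : V.valuation u = 1 := by
        rw [h4, Valuation.map_add_eq_of_lt_right _ (by rw [h6]; exact h5), h6]
      have h8 : u⁻¹ ∈ V := by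
        rw [← V.valuation_le_one_iff, map_inv₀, h7, inv_one]
      rintro y ⟨n, hn⟩
      have h9 : y = u⁻¹ ^ n * (u ^ n * y) := by
        rw [inv_pow, ← mul_assoc, inv_mul_cancel₀ (pow_ne_zero _ hu0), one_mul]
      rw [h9]
      exact mul_mem (pow_mem h8 n) (h2 _ hn)
  · rintro P hP hP0 ⟨g, hg, hy⟩
    by_contra hn
    obtain ⟨P₀, m1, m2, m3, m4⟩ := last O₀ (aw O' u huO) t (φ0 p) p.natDegree c0.ded ht0 hf0
      (le_aw O' u huO htiO) q1 q2 q3 q4 g (hgt g) (hst0 g) P hP hP0 hy hn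
    exact m4 (q5 P₀ m1 m2 ⟨g, hg, m3⟩)

end Pool.Agent.K3h55.CV
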