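import Pool.Agent.K3h55.CV.Base

/-!
# The polynomials in `1 / X` in the rational function field
-/

set_option autoImplicit false

namespace Pool.Agent.K3h55.CV

open Polynomial

/-- the polynomials in `1 / X` -/
def PInv (κ : Type) [Field κ] : Type := κ[X]

noncomputable instance instCR (κ : Type) [Field κ] : CommRing (PInv κ) :=
  inferInstanceAs (CommRing κ[X])

instance instDD (κ : Type) [Field κ] : IsDedekindDomain (PInv κ) :=
  inferInstanceAs (IsDedekindDomain κ[X])

noncomputable instance instAlg (κ : Type) [Field κ] : Algebra κ (PInv κ) :=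
  inferInstanceAs (Algebra κ κ[X])

instance instFT (κ : Type) [Field κ] : Algebra.FiniteType κ (PInv κ) :=
  inferInstanceAs (Algebra.FiniteType κ κ[X])

/-- `p ↦ p (1 / X)` -/
noncomputable def piv (κ : Type) [Field κ] : κ[X] →+* RatFunc κ :=
  (aeval (R := κ) ((RatFunc.X : RatFunc κ)⁻¹)).toRingHom

lemma piv_apply (κ : Type) [Field κ] (p : κ[X]) :
    piv κ p = eval₂ (algebraMap κ (RatFunc κ)) ((RatFunc.X : RatFunc κ)⁻¹) p := rfl

lemma alg_eval (κ : Type) [Field κ] (p : κ[X]) :
    algebraMap κ[X] (RatFunc κ) p = eval₂ (algebraMap κ (RatFunc κ)) (RatFunc.X : RatFunc κ) p := by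
  have h1 : (algebraMap κ[X] (RatFunc κ)) = (aeval (R := κ) (RatFunc.X : RatFunc κ)).toRingHom := by
    apply Polynomial.ringHom_ext
    · intro a
      simp [RatFunc.algebraMap_C, RatFunc.algebraMap_eq_C]
    · simp [RatFunc.algebraMap_X]
  rw [h1]
  rfl

/-- `p (X) = X ^ deg p * (reverse p) (1 / X)` -/
lemma rev (κ : Type) [Field κ] (p : κ[X]) :
    algebraMap κ[X] (RatFunc κ) p = piv κ p.reverse * RatFunc.X ^ p.natDegree := by
  rw [alg_eval, piv_apply]
  let _ : Invertible (RatFunc.X : RatFunc κ) := invertibleOfNonzero RatFunc.X_ne_zero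
  rw [← eval₂_reverse_mul_pow (algebraMap κ (RatFunc κ)) (RatFunc.X : RatFunc κ) p,
    invOf_eq_inv]

lemma piv_inj (κ : Type) [Field κ] : Function.Injective (piv κ) := by
  rw [injective_iff_map_eq_zero]
  intro p hp
  by_contra hne
  let _ : Invertible ((RatFunc.X : RatFunc κ)⁻¹) :=
    invertibleOfNonzero (inv_ne_zero RatFunc.X_ne_zero)
  have h1 := eval₂_reverse_mul_pow (algebraMap κ (RatFunc κ)) ((RatFunc.X : RatFunc κ)⁻¹) p
  rw [← piv_apply, hp, invOf_eq_inv, inv_inv, ← alg_eval] at h1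
  rcases mul_eq_zero.1 h1 with h2 | h2
  · have h3 : p.reverse = 0 := (RatFunc.algebraMap_injective κ) (by rw [h2, map_zero])
    exact hne (by rwa [reverse_eq_zero] at h3)
  · exact (pow_ne_zero _ (inv_ne_zero RatFunc.X_ne_zero)) h2

noncomputable instance instAlgR (κ : Type) [Field κ] : Algebra (PInv κ) (RatFunc κ) :=
  RingHom.toAlgebra (piv κ)

lemma algR (κ : Type) [Field κ] (p : κ[X]) :
    algebraMap (PInv κ) (RatFunc κ) p = piv κ p := rfl

instance instFR (κ : Type) [Field κ] : IsFractionRing (PInv κ) (RatFunc κ) := by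
  unfold IsFractionRing
  rw [isLocalization_iff]
  refine ⟨?_, ?_, ?_⟩
  · rintro ⟨p, hp⟩
    rw [isUnit_iff_ne_zero]
    intro h
    have h1 : p = (0 : κ[X]) := piv_inj κ (by rw [map_zero]; exact h)
    exact (nonZeroDivisors.ne_zero hp) h1
  · intro y
    obtain ⟨⟨p, q⟩, h⟩ := IsLocalization.surj (nonZeroDivisors κ[X]) y
    have hq : (q : κ[X]) ≠ 0 := nonZeroDivisors.ne_zero q.2
    have hX : (RatFunc.X : RatFunc κ) ≠ 0 := RatFunc.X_ne_zero
    have hs : ((q : κ[X]).reverse * X ^ p.natDegree : κ[X]) ≠ 0 :=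
      mul_ne_zero (by rwa [Ne, reverse_eq_zero]) (pow_ne_zero _ X_ne_zero)
    refine ⟨((p.reverse * X ^ (q : κ[X]).natDegree : κ[X]),
      ⟨((q : κ[X]).reverse * X ^ p.natDegree : κ[X]), ?_⟩), ?_⟩
    · exact mem_nonZeroDivisors_of_ne_zero (M₀ := PInv κ) hs
    · change y * piv κ ((q : κ[X]).reverse * X ^ p.natDegree) =
        piv κ (p.reverse * X ^ (q : κ[X]).natDegree)
      have hXp : ∀ n : ℕ, piv κ (X ^ n) = ((RatFunc.X : RatFunc κ)⁻¹) ^ n := by
        intro n
        rw [map_pow, piv_apply, eval₂_X]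
      rw [map_mul, map_mul, hXp, hXp]
      have h1 : y * (piv κ (q : κ[X]).reverse * RatFunc.X ^ (q : κ[X]).natDegree) =
          piv κ p.reverse * RatFunc.X ^ p.natDegree := by
        rw [← rev, ← rev]
        exact h
      have h2 : y * piv κ (q : κ[X]).reverse =
          piv κ p.reverse * RatFunc.X ^ p.natDegree / RatFunc.X ^ (q : κ[X]).natDegree := by
        rw [eq_div_iff (pow_ne_zero _ hX), ← h1]
        ring
      rw [← mul_assoc, h2, inv_pow, inv_pow, div_mul_eq_mul_div, mul_assoc,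
        mul_inv_cancel₀ (pow_ne_zero _ hX), mul_one, div_eq_mul_inv]
  · intro x y h
    exact ⟨1, by rw [piv_inj κ h]⟩

end Pool.Agent.K3h55.CV
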